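import Pool.Agent.E8helper30.TD.Stm

/-!
# Project TD, piece DIM: the dimer covering
-/

set_option autoImplicit false

namespace Pool.Agent.E8helper40.TD

open Pool.Agent.E8helper30.TD

/-- twice the centre of the dimer of the point `(a, b)` -/
def ctr (a b : ℤ) : ℤ × ℤ :=
  if (a - b) % 4 = 0 then (2 * a + 1, 2 * b)
  else if (a - b) % 4 = 1 then (2 * a - 1, 2 * b)
  else if (a - b) % 4 = 2 then (2 * a, 2 * b - 1)
  else (2 * a, 2 * b + 1)

theorem ctr_cls (a b : ℤ) :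
    (((ctr a b).1 - (ctr a b).2) % 8 = 1 ∧ (ctr a b).2 % 2 = 0) ∨
      (((ctr a b).1 - (ctr a b).2) % 8 = 5 ∧ (ctr a b).1 % 2 = 0) := by
  unfold ctr
  split_ifs with h0 h1 h2
  · left; constructor <;> simp only [] <;> omega
  · left; constructor <;> simp only [] <;> omega
  · right; constructor <;> simp only [] <;> omega
  · right; constructor <;> simp only [] <;> omega

theorem ctr_N (a b : ℤ) : N (2 * a - (ctr a b).1) (2 * b - (ctr a b).2) ≤ 1 := by
  unfold ctr N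
  split_ifs with h0 h1 h2
  · simp only []; ring_nf; norm_num
  · simp only []; ring_nf; norm_num
  · simp only []; ring_nf; norm_num
  · simp only []; ring_nf; norm_num

theorem small {x y : ℤ} (h : N x y < 7) : (-2 ≤ x ∧ x ≤ 2) ∧ (-2 ≤ y ∧ y ≤ 2) := by
  unfold N at h
  refine ⟨⟨?_, ?_⟩, ?_, ?_⟩
  · nlinarith [sq_nonneg (x + 2 * y)]
  · nlinarith [sq_nonneg (x + 2 * y)]
  · nlinarith [sq_nonneg (2 * x + y)]
  · nlinarith [sq_nonneg (2 * x + y)]

theorem cls {u v u' v' : ℤ}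
    (h : ((u - v) % 8 = 1 ∧ v % 2 = 0) ∨ ((u - v) % 8 = 5 ∧ u % 2 = 0))
    (h' : ((u' - v') % 8 = 1 ∧ v' % 2 = 0) ∨ ((u' - v') % 8 = 5 ∧ u' % 2 = 0)) :
    (u = u' ∧ v = v') ∨ 7 ≤ N (u - u') (v - v') := by
  by_contra hc
  push Not at hc
  obtain ⟨h1, h2⟩ := hc
  obtain ⟨⟨a1, a2⟩, a3, a4⟩ := small h2
  have hd : (u - u') - (v - v') = 0 := by omega
  have e : v - v' = u - u' := by omega
  rw [e] at h2
  unfold N at h2
  have h5 : u - u' ≠ 0 := by
    intro h6
    apply h1 <;> omega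
  have h7 : (u - u') % 2 = 0 := by omega
  have h8 : u - u' = 2 ∨ u - u' = -2 := by omega
  rcases h8 with h8 | h8 <;> rw [h8] at h2 <;> norm_num at h2

/-- DIM -/
theorem t_DIM : S_DIM := by
  refine ⟨ctr, ctr_N, fun a b a' b' => ?_⟩
  rcases cls (ctr_cls a b) (ctr_cls a' b') with h | h
  · exact Or.inl (Prod.ext h.1 h.2)
  · exact Or.inr h

end Pool.Agent.E8helper40.TD
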